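import Mathlib

set_option autoImplicit false

/-!
# Recursively partitionable graphs: deleting a branch of a semistar

`RP G S` says that the induced subgraph `G[S]` is recursively partitionable.
-/

namespace Pool.Agent.Helper546_rp

open Finset

/-- The induced subgraph `G[S]` of the graph `G` on the finite vertex set `S` is *recursively
partitionable*: either `S` has exactly one vertex, or `S` has at least two vertices, `G[S]` is
connected and for every integer partition of `|S|` into `k ≥ 2` positive parts `a 0, ..., a (k-1)`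
there are pairwise disjoint sets `A 0, ..., A (k-1)` with union `S` and `|A j| = a j` such that
every `G[A j]` is recursively partitionable (the sets `A j` are automatically smaller than `S`; this
is only repeated here to justify the recursion). -/
def RP {V : Type*} (G : SimpleGraph V) (S : Finset V) : Prop :=
  S.card = 1 ∨ (2 ≤ S.card ∧ (G.induce (S : Set V)).Connected ∧
    ∀ (k : ℕ) (a : Fin k → ℕ), 2 ≤ k → (∀ j, 0 < a j) → ∑ j, a j = S.card →
      ∃ A : Fin k → Finset V, (∀ j, (A j).card = a j) ∧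
        (∀ i j, i ≠ j → Disjoint (A i) (A j)) ∧ (∀ v, v ∈ S ↔ ∃ j, v ∈ A j) ∧
        ∀ j, ∃ _ : (A j).card < S.card, RP G (A j))
termination_by S.card

/-- The graph `G` is recursively partitionable. -/
def IsRP {V : Type*} [Fintype V] (G : SimpleGraph V) : Prop := RP G Finset.univ

/-- The label of a vertex of a semistar: `none` for the central clique, `some i` for the `i`-th
branch. -/
def lab {b0 k : ℕ} {b : Fin k → ℕ} : (Fin b0 ⊕ (Σ i : Fin k, Fin (b i))) → Option (Fin k)
  | Sum.inl _ => none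
  | Sum.inr p => some p.1

/-- The semistar `K_{b0}(b_1, ..., b_k)`: disjoint cliques on `b0`, `b_1`, ..., `b_k` vertices, and
all edges between the clique on `b0` vertices and the others. (Two distinct vertices are adjacent if
one of them is in the central clique or both are in the same branch.) -/
def semistar (b0 : ℕ) {k : ℕ} (b : Fin k → ℕ) :
    SimpleGraph (Fin b0 ⊕ (Σ i : Fin k, Fin (b i))) where
  Adj x y := x ≠ y ∧ (lab x = none ∨ lab y = none ∨ lab x = lab y)
  symm := ⟨fun _ _ ⟨h, h'⟩ => ⟨h.symm, by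
    rcases h' with h' | h' | h'
    · exact Or.inr (Or.inl h')
    · exact Or.inl h'
    · exact Or.inr (Or.inr h'.symm)⟩⟩
  loopless := ⟨fun _ ⟨h, _⟩ => h rfl⟩

section

variable {V : Type*} {G : SimpleGraph V}

lemma RP.pos {S : Finset V} (h : RP G S) : 0 < S.card := by
  rw [RP] at h
  omega

lemma RP.ne_empty {S : Finset V} (h : RP G S) : S ≠ ∅ := by
  rintro rfl
  have := h.pos
  simp at this

/-- Partitions with prescribed sizes, zeros allowed. -/
lemma wp {T : Finset V} (h : T = ∅ ∨ RP G T) (k : ℕ) (a : Fin k → ℕ) (ha : ∑ j, a j = T.card) :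
    ∃ A : Fin k → Finset V, (∀ j, (A j).card = a j) ∧
        (∀ i j, i ≠ j → Disjoint (A i) (A j)) ∧ (∀ v, v ∈ T ↔ ∃ j, v ∈ A j) ∧
        ∀ j, A j = ∅ ∨ RP G (A j) := by
  classical
  by_cases hT : T = ∅
  · subst hT
    refine ⟨fun _ => ∅, fun j => ?_, fun _ _ _ => by simp, fun v => by simp, fun j => Or.inl rfl⟩
    rw [Finset.card_empty] at ha
    have := (Finset.sum_eq_zero_iff.1 ha) j (Finset.mem_univ _)
    simp [this]
  have hR : RP G T := h.resolve_left hT
  have hT0 : 0 < T.card := hR.pos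
  obtain ⟨P, hP⟩ : ∃ P : Finset (Fin k), P = Finset.univ.filter (fun j => 0 < a j) := ⟨_, rfl⟩
  have hmem : ∀ j, j ∈ P ↔ 0 < a j := fun j => by rw [hP]; simp
  have hsum : ∑ j ∈ P, a j = T.card := by
    rw [← ha]
    refine Finset.sum_subset (Finset.subset_univ _) fun j _ hj => ?_
    have := (not_congr (hmem j)).1 hj
    omega
  rcases Nat.lt_or_ge P.card 2 with hlt | hge
  · -- exactly one
    have hP0 : P.Nonempty := by
      rw [Finset.nonempty_iff_ne_empty]
      rintro h0
      rw [h0, Finset.sum_empty] at hsum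
      omega
    have h1 : P.card = 1 := by
      have := hP0.card_pos
      omega
    obtain ⟨j0, hj0⟩ := Finset.card_eq_one.1 h1
    rw [hj0, Finset.sum_singleton] at hsum
    refine ⟨fun j => if j = j0 then T else ∅, fun j => ?_, fun i j hij => ?_, fun v => ?_,
      fun j => ?_⟩
    · by_cases hj : j = j0
      · simp [hj, hsum]
      · have : j ∉ P := by rw [hj0]; simpa using hj
        have := (not_congr (hmem j)).1 this
        simp [hj]
        omega
    · by_cases hi : i = j0
      · have : j ≠ j0 := fun e => hij (hi.trans e.symm)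
        simp [this]
      · simp [hi]
    · constructor
      · intro hv
        exact ⟨j0, by simpa using hv⟩
      · rintro ⟨j, hj⟩
        by_cases hjj : j = j0
        · simpa [hjj] using hj
        · simp [hjj] at hj
    · by_cases hj : j = j0
      · simp [hj, hR]
      · simp [hj]
  · have hR' := hR
    rw [RP] at hR'
    have hT2 : 2 ≤ T.card := by
      calc 2 ≤ P.card := hge
        _ = ∑ j ∈ P, 1 := by simp
        _ ≤ ∑ j ∈ P, a j := Finset.sum_le_sum fun j hj => (hmem j).1 hj
        _ = T.card := hsum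
    rcases hR' with h1 | ⟨-, -, hpart⟩
    · omega
    obtain ⟨e⟩ : Nonempty (Fin P.card ≃ P) := ⟨(P.equivFin).symm⟩
    obtain ⟨B, hB1, hB2, hB3, hB4⟩ := hpart P.card (fun m => a (e m)) hge
      (fun m => (hmem _).1 (e m).2) (by
        rw [← hsum, ← Finset.sum_coe_sort P]
        exact Fintype.sum_equiv e _ _ (fun m => rfl))
    refine ⟨fun j => if h : j ∈ P then B (e.symm ⟨j, h⟩) else ∅, fun j => ?_, fun i j hij => ?_,
      fun v => ?_, fun j => ?_⟩
    · by_cases hj : j ∈ P
      · simp only [hj, dif_pos]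
        rw [hB1, Equiv.apply_symm_apply]
      · simp only [hj, dif_neg, not_false_eq_true, Finset.card_empty]
        have := (not_congr (hmem j)).1 hj
        omega
    · by_cases hi : i ∈ P
      · by_cases hj : j ∈ P
        · simp only [hi, hj, dif_pos]
          refine hB2 _ _ fun he => hij ?_
          have := e.symm.injective he
          exact congrArg Subtype.val this
        · simp [hj]
      · simp [hi]
    · rw [hB3]
      constructor
      · rintro ⟨m, hm⟩
        refine ⟨e m, ?_⟩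
        simp only [(e m).2, dif_pos]
        rwa [Subtype.coe_eta, Equiv.symm_apply_apply]
      · rintro ⟨j, hj⟩
        by_cases hjP : j ∈ P
        · simp only [hjP, dif_pos] at hj
          exact ⟨_, hj⟩
        · simp [hjP] at hj
    · by_cases hj : j ∈ P
      · simp only [hj, dif_pos]
        exact Or.inr (hB4 _).2
      · simp [hj]

lemma conn_of_univ {Y : Finset V} {s : V} (hs : s ∈ Y) (h : ∀ v ∈ Y, v ≠ s → G.Adj s v) :
    (G.induce (Y : Set V)).Connected := by
  have : Nonempty (Y : Set V) := ⟨⟨s, hs⟩⟩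
  refine ⟨fun u v => ?_⟩
  have key : ∀ w : (Y : Set V), (G.induce (Y : Set V)).Reachable ⟨s, hs⟩ w := by
    intro w
    by_cases hw : (w : V) = s
    · have : w = ⟨s, hs⟩ := Subtype.ext hw
      rw [this]
    · exact SimpleGraph.Adj.reachable (show G.Adj s w from h _ w.2 hw)
  exact (key u).symm.trans (key v)

lemma no_conn {X : Finset V} (hX : (G.induce (X : Set V)).Connected) {B : Set V} {b v : V}
    (hb : b ∈ X) (hbB : b ∈ B) (hv : v ∈ X) (hvB : v ∉ B)
    (h : ∀ b ∈ X, b ∈ B → ∀ v ∈ X, v ∉ B → ¬ G.Adj b v) : False := by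
  obtain ⟨p⟩ := hX.preconnected ⟨b, hb⟩ ⟨v, hv⟩
  obtain ⟨d, -, h1, h2⟩ := p.exists_boundary_dart {x | (x : V) ∈ B} hbB hvB
  exact h _ d.fst.2 h1 _ d.snd.2 h2 d.adj

/-- Replacing the part of `X` in `B` by another recursively partitionable set of the same size. -/
lemma replace [DecidableEq V] (S B : Finset V) (hSB : Disjoint S B) (n : ℕ) :
    ∀ X T : Finset V, X.card = n → (∀ s ∈ S, ∀ v ∈ X ∪ T, v ≠ s → G.Adj s v) →
      (∀ b ∈ X, b ∈ B → ∀ v ∈ X, v ∉ B → v ∉ S → ¬ G.Adj b v) →
      Disjoint T (X \ B) → T.card = (X ∩ B).card → RP G X → (T = ∅ ∨ RP G T) →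
      RP G ((X \ B) ∪ T) := by
  induction n using Nat.strong_induction_on with
  | _ n ih =>
  intro X T hn h1 h2 h3 h4 hX hT
  have hcard : ((X \ B) ∪ T).card = X.card := by
    rw [Finset.card_union_of_disjoint h3.symm, h4, Finset.card_sdiff_add_card_inter]
  have hX' := hX
  rw [RP] at hX'
  rcases hX' with hX1 | ⟨hX2, hXc, hXp⟩
  · rw [RP]
    left
    rw [hcard, hX1]
  by_cases hs : ∃ s, s ∈ S ∧ s ∈ X
  · obtain ⟨s, hsS, hsX⟩ := hs
    have hsB : s ∉ B := Finset.disjoint_left.1 hSB hsS
    rw [RP]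
    right
    refine ⟨by rw [hcard]; exact hX2, conn_of_univ (s := s) ?_ ?_, ?_⟩
    · rw [Finset.mem_union, Finset.mem_sdiff]
      exact Or.inl ⟨hsX, hsB⟩
    · intro v hv hvs
      refine h1 s hsS v ?_ hvs
      rw [Finset.mem_union, Finset.mem_sdiff] at hv
      rw [Finset.mem_union]
      tauto
    · intro k a hk ha hsum
      rw [hcard] at hsum
      obtain ⟨A, hA1, hA2, hA3, hA4⟩ := hXp k a hk ha hsum
      have hAX : ∀ j, A j ⊆ X := fun j v hv => (hA3 v).2 ⟨j, hv⟩
      have hXB : (X ∩ B).card = ∑ j, (A j ∩ B).card := by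
        rw [← Finset.card_biUnion]
        · congr 1
          ext v
          simp only [Finset.mem_inter, Finset.mem_biUnion, Finset.mem_univ, true_and, hA3]
          tauto
        · intro i _ j _ hij
          exact (hA2 i j hij).mono Finset.inter_subset_left Finset.inter_subset_left
      obtain ⟨C, hC1, hC2, hC3, hC4⟩ := wp hT k (fun j => (A j ∩ B).card) (by rw [h4, hXB])
      have hCT : ∀ j, C j ⊆ T := fun j v hv => (hC3 v).2 ⟨j, hv⟩
      have hdis : ∀ i j, Disjoint (C i) (A j \ B) := fun i j =>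
        h3.mono (hCT i) (Finset.sdiff_subset_sdiff (hAX j) (Finset.Subset.refl _))
      have hc : ∀ j, ((A j \ B) ∪ C j).card = a j := by
        intro j
        rw [Finset.card_union_of_disjoint (hdis j j).symm, hC1, Finset.card_sdiff_add_card_inter,
          hA1]
      refine ⟨fun j => (A j \ B) ∪ C j, hc, ?_, ?_, ?_⟩
      · intro i j hij
        rw [Finset.disjoint_union_left, Finset.disjoint_union_right, Finset.disjoint_union_right]
        exact ⟨⟨(hA2 i j hij).mono Finset.sdiff_subset Finset.sdiff_subset, (hdis j i).symm⟩,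
          hdis i j, hC2 i j hij⟩
      · intro v
        simp only [Finset.mem_union, Finset.mem_sdiff, hA3, hC3]
        constructor
        · rintro (⟨⟨j, hj⟩, hv⟩ | ⟨j, hj⟩)
          · exact ⟨j, Or.inl ⟨hj, hv⟩⟩
          · exact ⟨j, Or.inr hj⟩
        · rintro ⟨j, ⟨hj, hv⟩ | hj⟩
          · exact Or.inl ⟨⟨j, hj⟩, hv⟩
          · exact Or.inr ⟨j, hj⟩
      · intro j
        obtain ⟨hlt, hRj⟩ := hA4 j
        refine ⟨by rw [hc, hcard, ← hA1]; exact hlt, ?_⟩
        refine ih (A j).card (by omega) (A j) (C j) rfl ?_ ?_ (hdis j j) (hC1 j) hRj (hC4 j)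
        · intro s hs v hv hvs
          refine h1 s hs v ?_ hvs
          rw [Finset.mem_union] at hv ⊢
          rcases hv with hv | hv
          · exact Or.inl (hAX j hv)
          · exact Or.inr (hCT j hv)
        · intro b hb hbB v hv hvB hvS
          exact h2 b (hAX j hb) hbB v (hAX j hv) hvB hvS
  · -- no vertex of S in X: X is inside B or disjoint from B
    have hs' : ∀ v ∈ X, v ∉ S := fun v hv hvS => hs ⟨v, hvS, hv⟩
    by_cases hb : ∃ b, b ∈ X ∧ b ∈ B
    · by_cases hv : ∃ v, v ∈ X ∧ v ∉ B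
      · exfalso
        obtain ⟨b, hbX, hbB⟩ := hb
        obtain ⟨v, hvX, hvB⟩ := hv
        exact no_conn hXc (B := (B : Set V)) hbX hbB hvX hvB
          (fun b hb hbB v hv hvB => h2 b hb hbB v hv hvB (hs' v hv))
      · have hsub : X ⊆ B := fun v hvX => by
          by_contra hvB
          exact hv ⟨v, hvX, hvB⟩
        have e1 : X \ B = ∅ := Finset.sdiff_eq_empty_iff_subset.2 hsub
        rw [e1, Finset.empty_union]
        refine hT.resolve_left ?_
        rintro rfl
        rw [Finset.card_empty, Finset.inter_eq_left.2 hsub] at h4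
        omega
    · have e1 : X ∩ B = ∅ := by
        rw [← Finset.disjoint_iff_inter_eq_empty, Finset.disjoint_left]
        exact fun v hv hvB => hb ⟨v, hv, hvB⟩
      rw [e1, Finset.card_empty, Finset.card_eq_zero] at h4
      have e2 : X \ B = X := by
        rw [Finset.sdiff_eq_self_iff_disjoint, Finset.disjoint_iff_inter_eq_empty, e1]
      rw [h4, Finset.union_empty, e2]
      exact hX

/-- Deleting `B` from a recursively partitionable graph, when the neighbours of `B` outside `B` are
adjacent to everything. -/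
theorem delete [DecidableEq V] (S B : Finset V) (hSB : Disjoint S B) (n : ℕ) :
    ∀ W : Finset V, W.card = n → (∀ s ∈ S, ∀ v ∈ W, v ≠ s → G.Adj s v) →
      (∀ b ∈ W, b ∈ B → ∀ v ∈ W, v ∉ B → v ∉ S → ¬ G.Adj b v) →
      RP G W → W \ B ≠ ∅ → RP G (W \ B) := by
  induction n using Nat.strong_induction_on with
  | _ n ih =>
  intro W hn h1 h2 hW hne
  by_cases hWB : W ∩ B = ∅
  · have e2 : W \ B = W := by
      rw [Finset.sdiff_eq_self_iff_disjoint, Finset.disjoint_iff_inter_eq_empty, hWB]
    rw [e2]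
    exact hW
  have hcW : (W \ B).card + (W ∩ B).card = W.card := Finset.card_sdiff_add_card_inter W B
  have hpos : 0 < (W \ B).card := Finset.card_pos.2 (Finset.nonempty_iff_ne_empty.2 hne)
  have hposB : 0 < (W ∩ B).card := Finset.card_pos.2 (Finset.nonempty_iff_ne_empty.2 hWB)
  by_cases hone : (W \ B).card = 1
  · rw [RP]
    exact Or.inl hone
  have hW' := hW
  rw [RP] at hW'
  rcases hW' with hW1 | ⟨hW2, hWc, hWp⟩
  · omega
  obtain ⟨b0, hb0⟩ := Finset.nonempty_iff_ne_empty.2 hWB
  obtain ⟨v0, hv0⟩ := Finset.nonempty_iff_ne_empty.2 hne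
  rw [Finset.mem_inter] at hb0
  rw [Finset.mem_sdiff] at hv0
  have hs : ∃ s, s ∈ S ∧ s ∈ W := by
    by_contra hs
    have hs' : ∀ v ∈ W, v ∉ S := fun v hv hvS => hs ⟨v, hvS, hv⟩
    exact no_conn hWc (B := (B : Set V)) hb0.1 hb0.2 hv0.1 hv0.2
      (fun b hb hbB v hv hvB => h2 b hb hbB v hv hvB (hs' v hv))
  obtain ⟨s, hsS, hsW⟩ := hs
  have hsB : s ∉ B := Finset.disjoint_left.1 hSB hsS
  rw [RP]
  right
  refine ⟨by omega, conn_of_univ (s := s) ?_ ?_, ?_⟩
  · rw [Finset.mem_sdiff]
    exact ⟨hsW, hsB⟩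
  · intro v hv hvs
    exact h1 s hsS v (Finset.mem_sdiff.1 hv).1 hvs
  intro k a hk ha hsum
  obtain ⟨A, hA1, hA2, hA3, hA4⟩ := hWp (k + 1)
    (Fin.snoc (α := fun _ => ℕ) a (W ∩ B).card) (by omega) (by
      intro j
      refine Fin.lastCases ?_ (fun j => ?_) j
      · rw [Fin.snoc_last]; exact hposB
      · rw [Fin.snoc_castSucc]; exact ha j) (by
      rw [Fin.sum_univ_castSucc]
      simp only [Fin.snoc_castSucc, Fin.snoc_last]
      omega)
  obtain ⟨Z, hZ⟩ : ∃ Z, Z = A (Fin.last k) := ⟨_, rfl⟩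
  obtain ⟨X, hXd⟩ : ∃ X : Fin k → Finset V, X = fun j => A (Fin.castSucc j) := ⟨_, rfl⟩
  have hZc : Z.card = (W ∩ B).card := by
    rw [hZ, hA1, Fin.snoc_last]
  have hXc : ∀ j, (X j).card = a j := fun j => by
    rw [hXd]
    simp only
    rw [hA1, Fin.snoc_castSucc]
  have hZW : Z ⊆ W := fun v hv => (hA3 v).2 ⟨_, hZ ▸ hv⟩
  have hXW : ∀ j, X j ⊆ W := fun j v hv => (hA3 v).2 ⟨j.castSucc, by rw [hXd] at hv; exact hv⟩
  have hXX : ∀ i j, i ≠ j → Disjoint (X i) (X j) := fun i j hij => by
    rw [hXd]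
    exact hA2 _ _ (fun h => hij (Fin.castSucc_injective _ h))
  have hXZ : ∀ j, Disjoint (X j) Z := fun j => by
    rw [hXd, hZ]
    exact hA2 _ _ (Fin.castSucc_lt_last j).ne
  have hmemW : ∀ v, v ∈ W ↔ (∃ j, v ∈ X j) ∨ v ∈ Z := by
    intro v
    rw [hA3, Fin.exists_fin_succ', hXd, hZ]
  have hXR : ∀ j, RP G (X j) := fun j => by
    rw [hXd]
    exact (hA4 _).2
  have hZR : RP G Z := by
    rw [hZ]
    exact (hA4 _).2
  -- sizes
  have hWBc : (W ∩ B).card = ∑ j, (X j ∩ B).card + (Z ∩ B).card := by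
    have e : W ∩ B = (Finset.univ.biUnion fun j => X j ∩ B) ∪ (Z ∩ B) := by
      ext v
      simp only [Finset.mem_inter, Finset.mem_union, Finset.mem_biUnion, Finset.mem_univ,
        true_and, hmemW]
      constructor
      · rintro ⟨⟨j, hj⟩ | hv, hB⟩
        · exact Or.inl ⟨j, hj, hB⟩
        · exact Or.inr ⟨hv, hB⟩
      · rintro (⟨j, hj, hB⟩ | ⟨hv, hB⟩)
        · exact ⟨Or.inl ⟨j, hj⟩, hB⟩
        · exact ⟨Or.inr hv, hB⟩
    rw [e, Finset.card_union_of_disjoint, Finset.card_biUnion]
    · intro i _ j _ hij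
      exact (hXX i j hij).mono Finset.inter_subset_left Finset.inter_subset_left
    · rw [Finset.disjoint_biUnion_left]
      intro j _
      exact (hXZ j).mono Finset.inter_subset_left Finset.inter_subset_left
  have hZs : (Z \ B).card + (Z ∩ B).card = Z.card := Finset.card_sdiff_add_card_inter Z B
  have hT : Z \ B = ∅ ∨ RP G (Z \ B) := by
    by_cases hz : Z \ B = ∅
    · exact Or.inl hz
    · right
      refine ih Z.card (by omega) Z rfl (fun s hs v hv => h1 s hs v (hZW hv)) ?_ hZR hz
      intro b hb hbB v hv hvB hvS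
      exact h2 b (hZW hb) hbB v (hZW hv) hvB hvS
  obtain ⟨C, hC1, hC2, hC3, hC4⟩ := wp hT k (fun j => (X j ∩ B).card) (by omega)
  have hCZ : ∀ j, C j ⊆ Z \ B := fun j v hv => (hC3 v).2 ⟨j, hv⟩
  have hdis : ∀ i j, Disjoint (C i) (X j \ B) := fun i j =>
    ((hXZ j).symm).mono ((hCZ i).trans Finset.sdiff_subset) Finset.sdiff_subset
  have hc : ∀ j, ((X j \ B) ∪ C j).card = a j := by
    intro j
    rw [Finset.card_union_of_disjoint (hdis j j).symm, hC1, Finset.card_sdiff_add_card_inter,
      hXc]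
  refine ⟨fun j => (X j \ B) ∪ C j, hc, ?_, ?_, ?_⟩
  · intro i j hij
    rw [Finset.disjoint_union_left, Finset.disjoint_union_right, Finset.disjoint_union_right]
    exact ⟨⟨(hXX i j hij).mono Finset.sdiff_subset Finset.sdiff_subset, (hdis j i).symm⟩,
      hdis i j, hC2 i j hij⟩
  · intro v
    constructor
    · intro hv
      obtain ⟨hvW, hvB⟩ := Finset.mem_sdiff.1 hv
      rcases (hmemW v).1 hvW with ⟨j, hj⟩ | hvZ
      · exact ⟨j, Finset.mem_union.2 (Or.inl (Finset.mem_sdiff.2 ⟨hj, hvB⟩))⟩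
      · obtain ⟨j, hj⟩ := (hC3 v).1 (Finset.mem_sdiff.2 ⟨hvZ, hvB⟩)
        exact ⟨j, Finset.mem_union.2 (Or.inr hj)⟩
    · rintro ⟨j, hj⟩
      rcases Finset.mem_union.1 hj with hj | hj
      · obtain ⟨hjX, hjB⟩ := Finset.mem_sdiff.1 hj
        exact Finset.mem_sdiff.2 ⟨hXW j hjX, hjB⟩
      · obtain ⟨hjZ, hjB⟩ := Finset.mem_sdiff.1 (hCZ j hj)
        exact Finset.mem_sdiff.2 ⟨hZW hjZ, hjB⟩
  · intro j
    refine ⟨?_, ?_⟩
    · rw [hc, ← hsum]
      have h2k : ∃ i : Fin k, i ≠ j := by
        by_cases hj0 : j = ⟨0, by omega⟩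
        · exact ⟨⟨1, by omega⟩, fun h => by rw [hj0] at h; simp at h⟩
        · exact ⟨⟨0, by omega⟩, fun h => hj0 h.symm⟩
      obtain ⟨i, hij⟩ := h2k
      have h3 : a i + a j ≤ ∑ j, a j := by
        have : ∑ x ∈ ({i, j} : Finset (Fin k)), a x ≤ ∑ j, a j :=
          Finset.sum_le_sum_of_subset (Finset.subset_univ _)
        rwa [Finset.sum_pair hij] at this
      have := ha i
      omega
    · refine replace S B hSB (X j).card (X j) (C j) rfl ?_ ?_ (hdis j j) (hC1 j) (hXR j) (hC4 j)
      · intro s hs v hv hvs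
        refine h1 s hs v ?_ hvs
        rcases Finset.mem_union.1 hv with hv | hv
        · exact hXW j hv
        · exact hZW (Finset.mem_sdiff.1 (hCZ j hv)).1
      · intro b hb hbB v hv hvB hvS
        exact h2 b (hXW j hb) hbB v (hXW j hv) hvB hvS

end

end Pool.Agent.Helper546_rp
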