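import Pool.Agent.Helper546_rp.Basic

set_option autoImplicit false

namespace Pool.Agent.Helper546_rp

open Finset

/-- Recursive partitionability passes to the other side of an isomorphism onto an induced
subgraph. -/
lemma rp_of_map {V V' : Type*} {G : SimpleGraph V} {G' : SimpleGraph V'} (f : V ↪ V')
    (hf : ∀ u v, G'.Adj (f u) (f v) ↔ G.Adj u v) (n : ℕ) :
    ∀ S : Finset V, S.card = n → RP G' (S.map f) → RP G S := by
  classical
  induction n using Nat.strong_induction_on with
  | _ n ih =>
  intro S hn h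
  rw [RP] at h
  rw [Finset.card_map] at h
  rw [RP]
  rcases h with h | ⟨h2, hc, hp⟩
  · exact Or.inl h
  right
  refine ⟨h2, ?_, ?_⟩
  · let F : G'.induce ((S.map f : Finset V') : Set V') ≃g G.induce (S : Set V) :=
      { toEquiv := (Equiv.ofBijective (fun x : (S : Set V) =>
            (⟨f x, Finset.mem_coe.2 (Finset.mem_map_of_mem f (Finset.mem_coe.1 x.2))⟩ :
              ((S.map f : Finset V') : Set V')))
          ⟨fun x y hxy => Subtype.ext (f.injective (congrArg Subtype.val hxy)), fun y => by
            obtain ⟨x, hx, hxy⟩ := Finset.mem_map.1 (Finset.mem_coe.1 y.2)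
            exact ⟨⟨x, hx⟩, Subtype.ext hxy⟩⟩).symm
        map_rel_iff' := by
          intro a b
          obtain ⟨x, rfl⟩ := (Equiv.ofBijective (fun x : (S : Set V) =>
            (⟨f x, Finset.mem_coe.2 (Finset.mem_map_of_mem f (Finset.mem_coe.1 x.2))⟩ :
              ((S.map f : Finset V') : Set V')))
            ⟨fun x y hxy => Subtype.ext (f.injective (congrArg Subtype.val hxy)), fun y => by
              obtain ⟨x, hx, hxy⟩ := Finset.mem_map.1 (Finset.mem_coe.1 y.2)
              exact ⟨⟨x, hx⟩, Subtype.ext hxy⟩⟩).surjective a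
          obtain ⟨y, rfl⟩ := (Equiv.ofBijective (fun x : (S : Set V) =>
            (⟨f x, Finset.mem_coe.2 (Finset.mem_map_of_mem f (Finset.mem_coe.1 x.2))⟩ :
              ((S.map f : Finset V') : Set V')))
            ⟨fun x y hxy => Subtype.ext (f.injective (congrArg Subtype.val hxy)), fun y => by
              obtain ⟨x, hx, hxy⟩ := Finset.mem_map.1 (Finset.mem_coe.1 y.2)
              exact ⟨⟨x, hx⟩, Subtype.ext hxy⟩⟩).surjective b
          rw [Equiv.symm_apply_apply, Equiv.symm_apply_apply]
          exact (hf x y).symm }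
    exact F.connected_iff.1 hc
  · intro k a hk ha hsum
    obtain ⟨A, hA1, hA2, hA3, hA4⟩ := hp k a hk ha hsum
    have hm : ∀ j, (S.filter fun v => f v ∈ A j).map f = A j := by
      intro j
      ext y
      simp only [Finset.mem_map, Finset.mem_filter]
      constructor
      · rintro ⟨x, ⟨-, hx⟩, rfl⟩
        exact hx
      · intro hy
        obtain ⟨x, hx, rfl⟩ := Finset.mem_map.1 ((hA3 y).2 ⟨j, hy⟩)
        exact ⟨x, ⟨hx, hy⟩, rfl⟩
    have hc' : ∀ j, (S.filter fun v => f v ∈ A j).card = a j := by
      intro j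
      rw [← hA1 j, ← hm j, Finset.card_map]
      rw [hm j]
    refine ⟨fun j => S.filter fun v => f v ∈ A j, hc', ?_, ?_, ?_⟩
    · intro i j hij
      rw [Finset.disjoint_left]
      intro v hv hv'
      exact Finset.disjoint_left.1 (hA2 i j hij) (Finset.mem_filter.1 hv).2
        (Finset.mem_filter.1 hv').2
    · intro v
      constructor
      · intro hv
        obtain ⟨j, hj⟩ := (hA3 (f v)).1 (Finset.mem_map_of_mem f hv)
        exact ⟨j, Finset.mem_filter.2 ⟨hv, hj⟩⟩
      · rintro ⟨j, hj⟩
        exact (Finset.mem_filter.1 hj).1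
    · intro j
      obtain ⟨hlt, hR⟩ := hA4 j
      have hlt' : (S.filter fun v => f v ∈ A j).card < S.card := by
        rw [hc', ← hA1 j]
        exact hlt
      refine ⟨hlt', ih (S.filter fun v => f v ∈ A j).card (hn ▸ hlt') _ rfl ?_⟩
      rw [hm j]
      exact hR

/-- Deleting the `i`-th branch of a recursively partitionable semistar. -/
theorem semistar_delete (b0 k : ℕ) (b : Fin (k + 1) → ℕ) (i : Fin (k + 1))
    (hne : 0 < b0 + ∑ j, i.removeNth b j) (h : IsRP (semistar b0 b)) :
    IsRP (semistar b0 (i.removeNth b)) := by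
  classical
  obtain ⟨f, hfd⟩ : ∃ f : (Fin b0 ⊕ (Σ j : Fin k, Fin (i.removeNth b j))) ↪
      (Fin b0 ⊕ (Σ j : Fin (k + 1), Fin (b j))), f = ⟨Sum.map id fun p => ⟨i.succAbove p.1, p.2⟩, by
        rintro (x | ⟨p, x⟩) (y | ⟨q, y⟩) hxy
        · simpa using hxy
        · simp at hxy
        · simp at hxy
        · simp only [Sum.map_inr, Sum.inr.injEq] at hxy
          obtain ⟨h1, h2⟩ := Sigma.ext_iff.1 hxy
          have hpq : p = q := Fin.succAbove_right_injective h1
          subst hpq
          have h3 : x = y := eq_of_heq h2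
          rw [h3]⟩ := ⟨_, rfl⟩
  have f_inl : ∀ x, f (Sum.inl x) = Sum.inl x := fun x => by rw [hfd]; rfl
  have f_inr : ∀ p x, f (Sum.inr ⟨p, x⟩) = Sum.inr ⟨i.succAbove p, x⟩ := fun p x => by
    rw [hfd]; rfl
  have hlab : ∀ u v, (lab (f u) = none ↔ lab u = none) ∧ (lab (f u) = lab (f v) ↔ lab u = lab v) := by
    rintro (x | ⟨p, x⟩) (y | ⟨q, y⟩) <;> simp [f_inl, f_inr, lab]
  refine rp_of_map (G' := semistar b0 b) f ?_ _ Finset.univ rfl ?_
  · intro u v
    change (f u ≠ f v ∧ (lab (f u) = none ∨ lab (f v) = none ∨ lab (f u) = lab (f v))) ↔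
      (u ≠ v ∧ (lab u = none ∨ lab v = none ∨ lab u = lab v))
    rw [(hlab u v).1, (hlab v u).1, (hlab u v).2, f.injective.ne_iff]
  · have himg : Finset.univ.map f = Finset.univ \
        (Finset.univ.filter fun v => lab v = some i) := by
      ext v
      simp only [Finset.mem_map, Finset.mem_univ, true_and, Finset.mem_sdiff, Finset.mem_filter]
      constructor
      · rintro ⟨u, rfl⟩
        rcases u with x | ⟨p, x⟩
        · simp [f_inl, lab]
        · simp [f_inr, lab, Fin.succAbove_ne]
      · intro hv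
        rcases v with x | ⟨p, x⟩
        · exact ⟨Sum.inl x, f_inl x⟩
        · have hp : p ≠ i := fun e => hv (by simp [lab, e])
          obtain ⟨q, rfl⟩ := Fin.exists_succAbove_eq hp
          exact ⟨Sum.inr ⟨q, x⟩, f_inr q x⟩
    rw [himg]
    refine delete (Finset.univ.filter fun v => lab v = none) (Finset.univ.filter fun v =>
      lab v = some i) ?_ _ Finset.univ rfl ?_ ?_ h ?_
    · rw [Finset.disjoint_left]
      intro v hv hv'
      have h1 := (Finset.mem_filter.1 hv).2
      have h2 := (Finset.mem_filter.1 hv').2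
      rw [h1] at h2
      exact absurd h2 (by simp)
    · intro s hs v _ hvs
      exact ⟨hvs.symm, Or.inl (Finset.mem_filter.1 hs).2⟩
    · intro u _ hu v _ hv hv' hadj
      have h1 := (Finset.mem_filter.1 hu).2
      rcases hadj.2 with h2 | h2 | h2
      · rw [h1] at h2
        exact absurd h2 (by simp)
      · exact hv' (Finset.mem_filter.2 ⟨Finset.mem_univ _, h2⟩)
      · exact hv (Finset.mem_filter.2 ⟨Finset.mem_univ _, h2 ▸ h1⟩)
    · rw [← himg]
      intro he
      have h1 : (Finset.univ : Finset (Fin b0 ⊕ (Σ j : Fin k, Fin (i.removeNth b j)))).card = 0 := by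
        rw [← Finset.card_map f, he, Finset.card_empty]
      simp only [Finset.card_univ, Fintype.card_sum, Fintype.card_fin, Fintype.card_sigma] at h1
      omega

end Pool.Agent.Helper546_rp
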